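import Pool.Agent.X323.GI.Kan

/-!
# Canonical degrees of curves on varieties with finite morphisms to cyclic covers

Let `k` be a field contained in `ℂ`, with algebraic closure `k'` in `ℂ`. Let `V` be a closed subset of
the projective space of dimension `n`, defined over `k'`, of dimension at most `m` (with any
singularities). For `a` in a finite set `A` let `F_a` be a member, generic over `k`, of a linear system
over `k'` of forms of degree `d_a`, and let `Z` be a set of indices `c` such that the linear systems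
contain all forms `x_c ^ (d_a - e) x_i ^ e`; let `E₀` be the linear space `x_c = 0`, `c ∈ Z`. Let `E` be
a subset of `A` and let `q_a ≥ 1` divide `d_a`, for `a ∉ E`. Let `X` be the cover of the intersection of
`V` with the hypersurfaces `F_a = 0`, `a ∈ E`, given by the equations `y_a ^ q_a = F_a (x)`, `a ∉ E`.
Suppose that the sum `δ` of the numbers `d_a + 1`, `a ∈ E`, and `(1 - 1 / q_a) d_a`, `a ∉ E`, is at least
`2 m + 1`.

Let `W ⊆ ℙ^N` be any projective variety (or closed algebraic set) with a morphism `φ` to `X` given by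
forms `g_j` of degree `r ≥ 1` and `h_a`; the morphism is finite, with `φ^* O(1) = O_W(r)`. Let `E_W` be
the preimage of `E₀`. Let `w` be a number (the dimension of `W`). There is a constant `B ≥ 0`, which
depends only on `W` and `w`, such that for each nonconstant map from a smooth projective curve `C` of
genus `g(C)` to `W` (for instance the normalisation of a curve in `W`), with image not in `E_W` and such
that `W` is smooth of dimension `w` at the general point of the image,

  `r (δ - 2 m) (K_W · C) ≤ B (2 g(C) - 2)`.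

So on each smooth projective surface `W` of this kind (`w = 2`) all curves not contained in `E_W`
satisfy `k_C ≤ A (g - 1)` with a constant `A`. If all coefficients of the forms `F_a` together are
algebraically independent over `k`, then `E_W` is empty, and this holds for all curves.
-/

set_option autoImplicit false

namespace Pool.Agent.Results.MP_308c18_ag.CoverCanonicalDegrees

open MvPolynomial FF Pool.Agent.W603.PV Pool.Agent.W603.LV Pool.Agent.W602.GT
  Pool.Agent.X323.GI
open Pool.Agent.TH145.MG (DimLE)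

/-- `z` is a point of `W = {J = 0}` over the function field `L` of a smooth projective curve that gives
a nonconstant map from this curve to `W`. -/
def CurveIn {N : ℕ} {L : Type} [Field L] [Algebra ℂ L] (J : Ideal (MvPolynomial (Fin (N + 1)) ℂ))
    (z : Fin (N + 1) → L) : Prop :=
  (z ≠ 0 ∧ ∀ f ∈ J, aeval z f = 0) ∧ ∃ i j, z j ≠ 0 ∧ z i / z j ∉ Set.range (algebraMap ℂ L)

theorem result {N : ℕ} (J : Ideal (MvPolynomial (Fin (N + 1)) ℂ))
    (hJ : ∀ f ∈ J, ∀ M, homogeneousComponent M f ∈ J) (w : ℕ) :
    ∃ B : ℕ, ∀ (k : Type) [Field k] [Algebra k ℂ] (n m : ℕ)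
      (V : Set (MvPolynomial (Fin (n + 1)) (algebraicClosure k ℂ))),
      (∀ f ∈ V, ∃ e, f.IsHomogeneous e) → DimLE (algebraicClosure k ℂ) V m →
      ∀ (A : Type) [Fintype A] [DecidableEq A] (d : A → ℕ) (E : Finset A) (q : A → ℕ),
      (∀ a, a ∉ E → q a ≠ 0 ∧ q a ∣ d a) → 2 * m + 1 ≤ covDegree d E q →
      ∀ (F : A → MvPolynomial (Fin (n + 1)) ℂ) (r : ℕ)
        (g : Fin (n + 1) → MvPolynomial (Fin (N + 1)) ℂ) (h : A → MvPolynomial (Fin (N + 1)) ℂ),
      0 < r → FormMap J V F E q r g h →
      -- (1) generic members of linear systems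
      (∀ Z : Set (Fin (n + 1)), GenericMembers k d Z F →
        ∀ (L : Type) [Field L] [Algebra ℂ L] [IsFF ℂ L] (z : Fin (N + 1) → L), CurveIn J z →
          (∃ c ∈ Z, aeval z (g c) ≠ 0) →
          ∀ u : Fin (w + 1) → Fin (N + 1) → L, TangentBasis J z u →
            r * ((covDegree d E q : ℤ) - 2 * m) * canonicalHeight z u ≤ B * canDeg ℂ L) ∧
      -- (2) forms with independent coefficients
      ((∀ a, (F a).IsHomogeneous (d a)) → (AlgebraicIndependent k
          fun p : (a : A) × {I : Fin (n + 1) →₀ ℕ // I.degree = d a} => (F p.1).coeff p.2.1) →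
        ∀ (L : Type) [Field L] [Algebra ℂ L] [IsFF ℂ L] (z : Fin (N + 1) → L), CurveIn J z →
          ∀ u : Fin (w + 1) → Fin (N + 1) → L, TangentBasis J z u →
            r * ((covDegree d E q : ℤ) - 2 * m) * canonicalHeight z u ≤ B * canDeg ℂ L) := by
  obtain ⟨B, hB⟩ := can_bound hJ w
  refine ⟨B, ?_⟩
  intro k _ _ n m V hVh hV A _ _ d E q hq hd F r g h hr hmap
  have key : ∀ Z : Set (Fin (n + 1)), GenericMembers k d Z F →
      ∀ (L : Type) [Field L] [Algebra ℂ L] [IsFF ℂ L] (z : Fin (N + 1) → L), CurveIn J z →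
        (∃ c ∈ Z, aeval z (g c) ≠ 0) →
        ∀ u : Fin (w + 1) → Fin (N + 1) → L, TangentBasis J z u →
          r * ((covDegree d E q : ℤ) - 2 * m) * canonicalHeight z u ≤ B * canDeg ℂ L := by
    intro Z hF L _ _ _ z hz hc u hu
    obtain ⟨c, hcZ, hc⟩ := hc
    obtain ⟨-, -, h1⟩ := form_curve hVh hV hF hq hr hJ hmap L z hz.1.1 hz.1.2 hz.2
    have h2 := h1 c hcZ hc
    have h3 := hB L z hz.1.1 hz.1.2 u hu
    have h4 : (0 : ℤ) ≤ r * ((covDegree d E q : ℤ) - 2 * m) := by
      have h5 : ((2 * m + 1 : ℕ) : ℤ) ≤ covDegree d E q := by exact_mod_cast hd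
      push_cast at h5
      have h6 : (0 : ℤ) ≤ (covDegree d E q : ℤ) - 2 * m := by linarith
      positivity
    have h7 := mul_le_mul_of_nonneg_left h3 h4
    have h8 : (B : ℤ) * (((covDegree d E q : ℤ) - 2 * m) * (r * pht ℂ z)) ≤ B * canDeg ℂ L :=
      mul_le_mul_of_nonneg_left h2 (by positivity)
    calc _ ≤ r * ((covDegree d E q : ℤ) - 2 * m) * (B * pht ℂ z) := h7
      _ = (B : ℤ) * (((covDegree d E q : ℤ) - 2 * m) * (r * pht ℂ z)) := by ring
      _ ≤ _ := h8
  refine ⟨key, fun hFh hind L _ _ _ z hz u hu => ?_⟩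
  have hgen := generic_full hFh hind
  obtain ⟨h1, -⟩ := form_curve hVh hV hgen hq hr hJ hmap L z hz.1.1 hz.1.2 hz.2
  obtain ⟨c, hc⟩ := Function.ne_iff.1 h1
  exact key Set.univ hgen L z hz ⟨c, Set.mem_univ _, hc⟩ u hu

end Pool.Agent.Results.MP_308c18_ag.CoverCanonicalDegrees
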