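import Pool.Agent.X180.CD.Exi
import Pool.Agent.Y192.FA.GAll

/-!
# Canonical degrees of the curves on covers of arbitrary surfaces

Let `Z ⊆ ℙⁿ` be **any** irreducible complex projective surface which is not contained in a coordinate
hyperplane (its homogeneous prime ideal is `I`), and let `F 1, …, F r` be any forms which do not vanish
on `Z`, with positive exponents `e 1, …, e r`. For `m` divisible by the `e j`, we consider the
irreducible components `Y` of the cover of `Z` with the equations

  `f (t 0 ^ m, …, t n ^ m) = 0`, `f ∈ I`,   `w j ^ e j = F j (t 0 ^ m, …, t n ^ m)`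

(`ZCov`, `ZField`, `Pool/Agent/Y192/KC/ZDefs.lean`): it is branched over the coordinate hyperplanes, with
the large index `m`, and over the arbitrary curves `F j = 0` with the indices `e j`. Let `X` be any
projective surface birational to `Y` (for instance a smooth one), in any embedding in `ℙ^(c+2)`. There is
a number `m0` which depends only on `Z`, the `F j` and the `e j`, such that for all `m ≥ m0`:

* `X` is of general type if and only if there is no one-parameter group of diagonal matrices which acts
  nontrivially on `ℙⁿ` and preserves `Z` and the essential parts of the branch divisors (`ZRed`);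
* then there are numbers `A`, `B` such that **all** curves `C` in `X` satisfy
  `deg C ≤ A max (2 g - 2, 0) + B` and `K_X · C ≤ A max (2 g - 2, 0) + B`, where `g` is the geometric
  genus of `C` (as `g ≥ 0`, this is the inequality `k_C ≤ A' (g - 1) + B'` of the question, with
  `A' = 2 A`, `B' = 2 A + B`).

There are no assumptions on the singularities of `Z` and on the position of the `F j` and of the
coordinate hyperplanes. Without the `F j`, and for hypersurfaces `Z` in `ℙ³` in general position, the
covers are smooth, with `K ² < c_2`, so that Miyaoka's theorem does not apply.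

`X` is given by its function field `L` and the homogeneous coordinates `x` of its generic point
(`coords ℂ x = ⊤`), and the curve `C` in `X` by its function field `E` and the coordinates `z` of its
generic point (`OnVar ℂ x z`: all forms which vanish at `x` vanish at `z`; `coords ℂ z = ⊤`); then
`pht ℂ z` is the degree of `C`, and `canDeg` is `2 g - 2`. The canonical degree of the curves in a
smooth surface is defined by means of the Gauss map `γ`, with `K_X = γ^* O(1) - 3 H` (`IsCanDegree`,
`Pool/Agent/X180/CD/Defs.lean`); we prove that it exists and is unique for all curves in smooth surfaces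
(`IsSmooth`: the Jacobian criterion).

Proof: outside a proper closed subset `H = 0` of `X` the inequality (with `B = 0`) is a theorem on these
covers (`Pool.Agent.Y192.FA.mainP_all`). The equations (in affine charts) of the curves in `X ∩ {H = 0}`
are minimal primes of one ideal (`Pool.Agent.X180.CD.curve_min`), so these curves are finite in number
and their degrees are bounded (`exists_bound`). For the canonical degree one compares the Plücker
coordinates of the conormal space at `z` with those of the gradients of a finite number of forms which
generate the ideal of `X` (`can_bound`).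
-/

set_option autoImplicit false

open FF Pool.Agent.W602.GT Pool.Agent.Y192.KC Pool.Agent.X180.CD
open Pool.Agent.Y216 (OnVar CurveBound)
open Pool.Agent.W603.LV (canDeg)
open Pool.Agent.W603.PV (pht)

namespace Pool.Agent.Results.MP_308c18_ag.KummerCoverSurfaces

/-- Let `X` be the surface in projective space with generic point `x`. There are `A` and `B` such that
for all curves `C` in `X` (with function field `E` and generic point `z`) of geometric genus `g`, the
degree and the canonical degree of `C` are at most `A max (2 g - 2, 0) + B`. If `X` is smooth then each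
curve in `X` has exactly one canonical degree. -/
def Bounds {c : ℕ} {L : Type} [Field L] [Algebra ℂ L] (x : Fin (c + 2 + 1) → L) : Prop :=
  ∃ A B : ℕ, ∀ (E : Type) [Field E] [Algebra ℂ E] [IsFF ℂ E] (z : Fin (c + 2 + 1) → E),
    OnVar ℂ x z → coords ℂ z = ⊤ →
      pht ℂ z ≤ A * max (canDeg ℂ E) 0 + B ∧
      (∀ κ, IsCanDegree ℂ x z κ → κ ≤ A * max (canDeg ℂ E) 0 + B) ∧
      (IsSmooth ℂ c x → ∃! κ, IsCanDegree ℂ x z κ)

theorem bounds_of {c : ℕ} {L : Type} [Field L] [Algebra ℂ L] {x : Fin (c + 2 + 1) → L}
    (hgen : coords ℂ x = ⊤) (hdim : Algebra.trdeg ℂ L = (2 : ℕ)) (h : CurveBound ℂ x) :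
    Bounds x := by
  obtain ⟨G, hG, hGx, A, hA⟩ := h
  obtain ⟨B, hB⟩ := exists_bound hgen hdim hG hGx
  obtain ⟨D, hD⟩ := can_bound (k := ℂ) x
  refine ⟨(D + 1) * A, (D + 1) * B, fun E _ _ _ z hz hgz => ?_⟩
  have h0 : (0 : ℤ) ≤ A * max (canDeg ℂ E) 0 :=
    mul_nonneg (Nat.cast_nonneg _) (le_max_right _ _)
  have hB0 : (0 : ℤ) ≤ B := Nat.cast_nonneg _
  have h1 : pht ℂ z ≤ A * max (canDeg ℂ E) 0 + B := by
    by_cases hzG : val z G = 0
    · have h2 := hB E z (Function.ne_iff.2 hz.1) hgz hzG hz.2
      linarith
    · have h2 := hA E z hz hzG
      linarith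
  have hm : (0 : ℤ) ≤ A * max (canDeg ℂ E) 0 + B := by linarith
  have hD0 : (0 : ℤ) ≤ D := Nat.cast_nonneg _
  have h2 : (D : ℤ) * pht ℂ z ≤ D * (A * max (canDeg ℂ E) 0 + B) :=
    mul_le_mul_of_nonneg_left h1 hD0
  have h3 : (0 : ℤ) ≤ D * (A * max (canDeg ℂ E) 0 + B) := mul_nonneg hD0 hm
  push_cast
  refine ⟨?_, fun κ hκ => ?_, fun hs => ?_⟩
  · nlinarith
  · have h4 := hD E z κ hz hκ
    nlinarith
  · obtain ⟨κ, hκ⟩ := exists_can hs hz
    exact ⟨κ, hκ, fun κ' hκ' => can_unique hκ' hκ⟩

/-- **Canonical degrees.** Let `Z` be any irreducible projective surface in `ℙⁿ`, not in a coordinate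
hyperplane, with the homogeneous prime ideal `I`, let `F 1, …, F r` be forms which do not vanish on `Z`,
and let `e 1, …, e r` be positive numbers (and `G = 1`). There is a number `m0` with the following
property. Let `m ≥ m0` be divisible by the `e j`, and let `Y` be any irreducible component of the
projective surface with the equations `f (t 0 ^ m, …, t n ^ m) = 0`, `f ∈ I`, and
`w j ^ e j = F j (t 0 ^ m, …, t n ^ m)`; `L` is the function field of `Y`, and `t`, `w` are the coordinates
of its generic point. Let `X` be any surface in projective space which is birational to `Y`, with generic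
point `x`. Then `X` is of general type if and only if there is no one-parameter group of diagonal
matrices which acts nontrivially on `ℙⁿ` and preserves `Z` and the essential parts of the branch divisors
`F j = 0` on `Z`; and then the inequalities in `Bounds` hold for all curves in `X`. -/
theorem result {n r : ℕ} (X : ZCov n r) (hG : X.G = 1) :
    ∃ m0 : ℕ, ∀ m, m0 ≤ m → (∀ j, X.e j ∣ m) →
      ∀ (L : Type) [Field L] [Algebra ℂ L] (t : Fin (n + 1) → L) (w : Fin r → L),
      ZField X m L t w → Algebra.trdeg ℂ L = (2 : ℕ) →
      ∀ (c : ℕ) (x : Fin (c + 2 + 1) → L), x ≠ 0 → coords ℂ x = ⊤ →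
      (GeneralType ℂ L 2 ↔ ¬ ZRed X) ∧ (¬ ZRed X → Bounds x) := by
  obtain ⟨m0, hm0⟩ := Pool.Agent.Y192.FA.mainP_all X hG
  refine ⟨m0, fun m hm he L _ _ t w hF htr c x hx hgen => ?_⟩
  have h := hm0 m hm he L t w hF 2 (by norm_num) htr (c + 2) x hx hgen
  exact ⟨h.out 0 3, fun hr => bounds_of hgen htr ((h.out 3 2).1 hr)⟩

end Pool.Agent.Results.MP_308c18_ag.KummerCoverSurfaces
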