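import Pool.Agent.X180.CD.Can
import Pool.Agent.X333.DC.DomH

/-!
# Canonical degrees of the curves on surfaces which correspond to nested sums of high powers

Let `V = {F = 0}` be a projective variety in `ℙⁿ` whose equations are nested sums of powers of linear
forms, or nested sums of powers of monomials: sums of at most `s` terms `c g ^ e`, where the `g` are
linear forms (monomials) or again such sums, with at most `h + 1` levels, and all exponents are at
least `N ≥ 8 ρ r (n + 1) (h + 1) (2 s + 1) ^ 5` (`HighTowers`). For instance, `V` is the Kummer cover
`S (x_0 ^ e, ..., x_n ^ e) = 0` of any surface `S` (with any number of equations, which have at most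
`s` monomials), `h = 0`, `e ≥ N`; for large `e` and `S` in general position this is a smooth surface
which, for hypersurfaces in `ℙ³`, satisfies `K ² < c_2`, so that Miyaoka's theorem does not apply.

Let `X` be any projective surface, in any embedding in `ℙ^(c+2)`, such that there is a surface `X'`
with generically finite maps `X' ⇢ X`, of degree at most `r`, and `X' ⇢ Y`, of any degree, where
`Y ⊆ V` is a closed surface which is not covered by rational curves in `V`, or is an irreducible
component of `V` which is not birationally ruled. We show that `X` is of general type, and that there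
are numbers `A`, `B` such that **all** curves `C` in `X` satisfy

  `deg C ≤ A max (2 g - 2, 0) + B`,   `K_X · C ≤ A max (2 g - 2, 0) + B`,

where `g` is the geometric genus of `C` (as `g ≥ 0`, this is the inequality `k_C ≤ A' (g - 1) + B'` of the
question, with `A' = 2 A`, `B' = 2 A + B`); and even the same inequalities with the genus of any curve
of which the normalization of `C` is a covering of degree at most `ρ` (so the curves of gonality at
most `ρ` in `X` have bounded degree). If `Y` is an irreducible component of `V` which dominates `X`,
with degree at most `r`, then it is enough that `X` is not uniruled.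

`X` is given by its function field `L` and the homogeneous coordinates `x` of its generic point
(`coords k x = ⊤`), and the curve `C` in `X` by its function field `E` and the coordinates `z` of its
generic point (`OnVar k x z`: all forms which vanish at `x` vanish at `z`; `coords k z = ⊤`); then
`pht k z` is the degree of `C`, and `canDeg` is `2 g - 2`. The canonical degree of the curves in a
smooth surface is defined by means of the Gauss map `γ`, with `K_X = γ^* O(1) - 3 H` (`IsCanDegree`,
`Pool/Agent/X180/CD/Defs.lean`). Nothing is assumed about the singularities of `V` and of `Y`.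

Proof: outside a proper closed subset `H = 0` of `X` the inequality (with `B = 0`) is a theorem on the
varieties dominated by `V` (`Pool.Agent.X333.DC.dom_allH`). The equations (in affine charts) of the
curves in `X ∩ {H = 0}` are minimal primes of one ideal (`Pool.Agent.X180.CD.curve_min`), so these
curves are finite in number and their degrees are bounded (`exists_bound`). For the canonical degree
one compares the Plücker coordinates of the conormal space at `z` with those of the gradients of a
finite number of forms which generate the ideal of `X` (`can_bound`).
-/

set_option autoImplicit false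

open FF Pool.Agent.W602.GT Pool.Agent.TH466.QG Pool.Agent.TH710.ND Pool.Agent.X180.CD
open Pool.Agent.Y216 (OnVar)
open Pool.Agent.W603.LV (canDeg)
open Pool.Agent.W603.PV (pht)
open Pool.Agent.W619.PQ (IsUniruled)

namespace Pool.Agent.Results.MP_308c18_ag.SurfacesOfGeneralType

/-- Let `X` be the surface in projective space with generic point `x`. There are `A` and `B` such that
for all curves `C` in `X` (with function field `E` and generic point `z`) and all coverings `C' → D` of
degree at most `ρ`, where `C'` is the normalization of `C` and `D` is a smooth projective curve of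
genus `g` (with function field `K`), the degree and the canonical degree of `C` are at most
`A max (2 g - 2, 0) + B`. In particular this holds for `D = C'`. -/
def Bounds (k : Type) [Field k] (ρ : ℕ) {c : ℕ} {L : Type} [Field L] [Algebra k L]
    (x : Fin (c + 2 + 1) → L) : Prop :=
  ∃ A B : ℕ, ∀ (K E : Type) [Field K] [Field E] [Algebra k K] [Algebra k E] [Algebra K E]
    [IsScalarTower k K E] [FiniteDimensional K E] [IsFF k K] [IsFF k E],
    Module.finrank K E ≤ ρ → ∀ z : Fin (c + 2 + 1) → E, OnVar k x z → coords k z = ⊤ →
      pht k z ≤ A * max (canDeg k K) 0 + B ∧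
      ∀ κ, IsCanDegree k x z κ → κ ≤ A * max (canDeg k K) 0 + B

theorem bounds_of {k : Type} [Field k] [IsAlgClosed k] [CharZero k] {c ρ : ℕ} {L : Type} [Field L]
    [Algebra k L] {x : Fin (c + 2 + 1) → L} (hgen : coords k x = ⊤)
    (hdim : Algebra.trdeg k L = (2 : ℕ)) (h : Pool.Agent.Y221.PB.CoverBound k ρ x) :
    Bounds k ρ x := by
  obtain ⟨A, B, hAB⟩ := all_curves hgen hdim h
  obtain ⟨D, hD⟩ := can_bound (k := k) x
  refine ⟨(D + 1) * A, (D + 1) * B, fun K E _ _ _ _ _ _ _ _ _ hr z hz hgz => ?_⟩
  have h1 := hAB K E hr z hz hgz
  have hm : (0 : ℤ) ≤ A * max (canDeg k K) 0 + B :=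
    add_nonneg (mul_nonneg (Nat.cast_nonneg _) (le_max_right _ _)) (Nat.cast_nonneg _)
  have hD0 : (0 : ℤ) ≤ D := Nat.cast_nonneg _
  have h2 : (D : ℤ) * pht k z ≤ D * (A * max (canDeg k K) 0 + B) :=
    mul_le_mul_of_nonneg_left h1 hD0
  have h3 : (0 : ℤ) ≤ D * (A * max (canDeg k K) 0 + B) := mul_nonneg hD0 hm
  push_cast
  constructor
  · nlinarith
  · intro κ hκ
    have h4 := hD E z κ hz hκ
    nlinarith

/-- **Canonical degrees.** Let the forms `F` be nested sums of high powers of linear forms or of
monomials, and let `Y` be a closed surface in `{F = 0}`, with function field `K` and generic point `y`.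

(1) Let `Y` be not covered by rational curves in `{F = 0}` (there is no rational curve over `K` through
the point `y`), or an irreducible component which is not ruled. Let `X'` be a surface, with function
field `K'`, with generically finite maps to `Y` and to `X`, where the degree of `X'` over `X` is at
most `r`, and `X` is a surface in projective space with function field `L` and generic point `x`. Then
`X` is of general type, and the inequalities in `Bounds` hold for all curves in `X`.

(2) Let `Y` be an irreducible component of `{F = 0}`, which dominates the surface `X` with degree at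
most `r`. If `X` is not uniruled, then it is of general type and the inequalities in `Bounds` hold for
all curves in `X`. -/
theorem result {k : Type} [Field k] [IsAlgClosed k] [CharZero k] {n : ℕ} {ι : Type} [Finite ι]
    {F : ι → MvPolynomial (Fin (n + 1)) k} {s N h r ρ : ℕ} (hF : HighTowers s N h F)
    (hρ : 1 ≤ ρ) (hN : 8 * (ρ * r * ((n + 1) * ((h + 1) * (2 * s + 1) ^ 5))) ≤ N)
    {K : Type} [Field K] [Algebra k K] {y : Fin (n + 1) → K} (hy : SubVar F K 2 y) :
    ((¬ RatCurve F y ∨ IsComponent F y ∧ ¬ Ruled k K) →
      ∀ (K' L : Type) [Field K'] [Field L] [Algebra k K'] [Algebra k L] [Algebra K K']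
        [Algebra L K'] [IsScalarTower k K K'] [IsScalarTower k L K'] [FiniteDimensional K K']
        [FiniteDimensional L K'], Module.finrank L K' ≤ r →
      ∀ (c : ℕ) (x : Fin (c + 2 + 1) → L), x ≠ 0 → coords k x = ⊤ →
        GeneralType k L 2 ∧ Bounds k ρ x) ∧
    (IsComponent F y →
      ∀ (L : Type) [Field L] [Algebra k L] [Algebra L K] [IsScalarTower k L K]
        [FiniteDimensional L K], Module.finrank L K ≤ r → ¬ IsUniruled k L 2 →
      ∀ (c : ℕ) (x : Fin (c + 2 + 1) → L), x ≠ 0 → coords k x = ⊤ →
        GeneralType k L 2 ∧ Bounds k ρ x) := by
  constructor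
  · intro h0 K' L _ _ _ _ _ _ _ _ _ _ hr c x hx hgen
    have h1 := Pool.Agent.X333.DC.dom_allH (K' := K') hF (by norm_num) hρ hN hy h0 hr hx hgen
    have hdim : Algebra.trdeg k L = (2 : ℕ) := by
      rw [← trdeg_alg (k := k) (E := L) (K := K'), trdeg_alg (k := k) (E := K) (K := K'), hy.dim]
    exact ⟨h1.1, bounds_of hgen hdim h1.2.1⟩
  · intro hc L _ _ _ _ _ hr hu c x hx hgen
    have h1 := Pool.Agent.X333.DC.dom_tfaeH hF (by norm_num) hρ hN hy hc hr hx hgen
    have hdim : Algebra.trdeg k L = (2 : ℕ) := by
      rw [← trdeg_alg (k := k) (E := L) (K := K), hy.dim]
    exact ⟨(h1.out 5 0).1 hu, bounds_of hgen hdim ((h1.out 5 4).1 hu)⟩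

end Pool.Agent.Results.MP_308c18_ag.SurfacesOfGeneralType
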